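import Pool.Agent.H166R3.HD.Rec

set_option autoImplicit false

/-! A 1-generic sequence computable from the halting set. -/

namespace Pool.Agent.Helper206.Gen

open Pool.Agent.Helper743 Pool.Agent.H166R3.HD
open Nat.Partrec (Code)
open scoped Classical

/-- The characteristic function of the halting set. -/
noncomputable def KK : ℕ → ℕ :=
  fun n => if ((Denumerable.ofNat Code n).eval n).Dom then 1 else 0

/-- Every c.e. predicate is decidable from the halting set. -/
theorem re_reduce {A : ℕ → Prop} (hA : REPred A) :
    ∃ a : ℕ → ℕ, Computable a ∧ ∀ n, (((Denumerable.ofNat Code (a n)).eval (a n)).Dom ↔ A n) := by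
  have hf : Partrec (fun m : ℕ => (Part.assert (A (Nat.unpair m).1) fun _ => Part.some ()).map
      (fun _ => 0)) :=
    Partrec.map (Partrec.comp hA (Computable.fst.comp Computable.unpair)) (Computable.const 0).to₂
  obtain ⟨c, hc⟩ := Code.exists_code.1 (Partrec.nat_iff.1 hf)
  refine ⟨fun n => Encodable.encode (Code.curry c n),
    Computable.encode.comp (Code.primrec₂_curry.comp (Primrec.const c) Primrec.id).to_comp,
    fun n => ?_⟩
  rw [Denumerable.ofNat_encode, Code.eval_curry, hc]
  simp [Part.map, Part.assert]

theorem rp_re {A : ℕ → Prop} (hA : REPred A) : RP {((KK : ℕ → ℕ) : ℕ →. ℕ)} A := by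
  obtain ⟨a, ha, hA'⟩ := re_reduce hA
  have h1 : RecT {((KK : ℕ → ℕ) : ℕ →. ℕ)} (fun n => KK (a n)) :=
    RecT.comp (TR.refl KK) (Pool.Agent.Helper743.Computable.recT ha)
  refine RecT.congr h1 fun n => ?_
  unfold KK
  by_cases h : A n
  · rw [if_pos h, if_pos ((hA' n).2 h)]
  · rw [if_neg h, if_neg (fun h' => h ((hA' n).1 h'))]

theorem re_of_exists {α : Type} [Primcodable α] {f : α → ℕ → Bool} (hf : Computable₂ f) :
    REPred (fun a => ∃ u, f a u = true) := by
  have h : Partrec fun a => Nat.rfind (fun u => (Part.some (f a u) : Part Bool)) :=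
    Partrec.rfind (p := fun a u => Part.some (f a u)) hf.partrec₂
  refine (h.dom_re).of_eq fun a => ?_
  constructor
  · intro h
    obtain ⟨n, hn, -⟩ := Nat.rfind_dom'.1 h
    refine ⟨n, ?_⟩
    have h2 : true = f a n := by simpa using hn
    exact h2.symm
  · rintro ⟨n, hn⟩
    exact Nat.rfind_dom'.2 ⟨n, by simp [hn], fun _ => trivial⟩

theorem rp_comp {A : ℕ → Bool} {O : Set (ℕ →. ℕ)} (hA : Computable A) :
    RP O (fun n => A n = true) := by
  have h : Computable fun n => bif A n then 1 else 0 :=
    Computable.cond hA (Computable.const 1) (Computable.const 0)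
  refine RecT.congr (Pool.Agent.Helper743.Computable.recT h) fun n => ?_
  by_cases hn : A n = true
  · rw [if_pos hn, hn]
    rfl
  · rw [if_neg hn, Bool.eq_false_of_not_eq_true hn]
    rfl

/-- initial segments -/
def seg (A : ℕ → Bool) (n : ℕ) : List Bool := (List.range n).map A

theorem seg_length (A : ℕ → Bool) (n : ℕ) : (seg A n).length = n := by simp [seg]

theorem seg_succ (A : ℕ → Bool) (n : ℕ) : seg A (n + 1) = seg A n ++ [A n] := by
  simp [seg, List.range_succ]

/-- the list with a given code -/
def dl (s : ℕ) : List Bool := (Encodable.decode (α := List Bool) s).getD []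

theorem dl_encode (l : List Bool) : dl (Encodable.encode l) = l := by simp [dl]

theorem dl_computable : Computable dl :=
  Computable.option_getD Computable.decode (Computable.const [])

/-- the test: `pair t k` witnesses that the list with code `t` extends the list with code `s` and
belongs to the `e`-th c.e. set -/
def cb (a u : ℕ) : Bool :=
  decide (dl a.unpair.2 <+: dl u.unpair.1) &&
    (Code.evaln u.unpair.2 (Denumerable.ofNat Code a.unpair.1)
      (Encodable.encode (dl u.unpair.1))).isSome

theorem prefix_computable : Computable₂ (fun (a b : List Bool) => decide (a <+: b)) := by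
  have h : Primrec (fun p : List Bool × List Bool => decide (p.1 = p.2.take p.1.length)) :=
    Primrec.beq.comp Primrec.fst
      (Primrec.list_take.comp (Primrec.list_length.comp Primrec.fst) Primrec.snd)
  refine Computable.of_eq h.to_comp fun p => ?_
  rw [decide_eq_decide, List.prefix_iff_eq_take]

theorem cb_computable : Computable₂ cb := by
  have h1 : Computable fun q : ℕ × ℕ => dl q.1.unpair.2 :=
    dl_computable.comp (Computable.snd.comp (Computable.unpair.comp Computable.fst))
  have h2 : Computable fun q : ℕ × ℕ => dl q.2.unpair.1 :=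
    dl_computable.comp (Computable.fst.comp (Computable.unpair.comp Computable.snd))
  have h3 : Computable fun q : ℕ × ℕ => decide (dl q.1.unpair.2 <+: dl q.2.unpair.1) :=
    prefix_computable.comp h1 h2
  have h4 : Computable fun q : ℕ × ℕ => Denumerable.ofNat Code q.1.unpair.1 :=
    (Computable.ofNat Code).comp (Computable.fst.comp (Computable.unpair.comp Computable.fst))
  have h5 : Computable fun q : ℕ × ℕ => q.2.unpair.2 :=
    Computable.snd.comp (Computable.unpair.comp Computable.snd)
  have h6 : Computable fun q : ℕ × ℕ => Code.evaln q.2.unpair.2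
      (Denumerable.ofNat Code q.1.unpair.1) (Encodable.encode (dl q.2.unpair.1)) :=
    Code.primrec_evaln.to_comp.comp ((h5.pair h4).pair (Computable.encode.comp h2))
  exact Primrec.and.to_comp.comp h3 (Primrec.option_isSome.to_comp.comp h6)

/-- there is a witness -/
def RR (a : ℕ) : Prop := ∃ u, cb a u = true

theorem RR_re : REPred RR := re_of_exists cb_computable

theorem exists_next : ∃ g : ℕ → ℕ, RecT {((KK : ℕ → ℕ) : ℕ →. ℕ)} g ∧
    ∀ a, RR a → cb a (g a) = true := by
  have h1 : RP {((KK : ℕ → ℕ) : ℕ →. ℕ)} (fun z : ℕ => RR z.unpair.1) :=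
    RP.comp (rp_re RR_re) (RecT.fst recT_id)
  have h2 : RP {((KK : ℕ → ℕ) : ℕ →. ℕ)} (fun z : ℕ => cb z.unpair.1 z.unpair.2 = true) :=
    rp_comp (cb_computable.comp (Computable.fst.comp Computable.unpair)
      (Computable.snd.comp Computable.unpair))
  have h3 : RP {((KK : ℕ → ℕ) : ℕ →. ℕ)}
      (fun z : ℕ => ¬ RR z.unpair.1 ∨ cb z.unpair.1 z.unpair.2 = true) := RP.or (RP.not h1) h2
  obtain ⟨g, hg, hg2⟩ := RecT.search h3 (by
    intro a
    by_cases h : RR a
    · obtain ⟨u, hu⟩ := h
      exact ⟨u, by simp [hu]⟩
    · exact ⟨0, by simp [h]⟩)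
  refine ⟨g, hg, fun a ha => ?_⟩
  have := hg2 a
  simp only [Nat.unpair_pair] at this
  tauto

/-- The 1-generic sequence below the halting set. -/
theorem exists_generic : ∃ A : ℕ → Bool, TR (fun n => (A n).toNat) KK ∧
    ∀ W : List Bool → Prop, REPred W →
      (∃ n, W (seg A n)) ∨ (∃ n, ∀ τ, seg A n <+: τ → ¬ W τ) := by
  obtain ⟨g, hg, hg2⟩ := exists_next
  -- the step
  let nx : ℕ → ℕ := fun a => if RR a then (g a).unpair.1 else a.unpair.2
  have hnx : RecT {((KK : ℕ → ℕ) : ℕ →. ℕ)} nx :=
    RecT.ite (rp_re RR_re) (RecT.fst hg) (RecT.snd recT_id)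
  let ap : ℕ → ℕ := fun s => Encodable.encode (dl s ++ [false])
  have hap : RecT {((KK : ℕ → ℕ) : ℕ →. ℕ)} ap := by
    refine Pool.Agent.Helper743.Computable.recT ?_
    exact Computable.encode.comp (Computable.list_append.comp dl_computable
      (Computable.const [false]))
  have hstep : RecT {((KK : ℕ → ℕ) : ℕ →. ℕ)} (fun z => ap (nx z.unpair.2)) :=
    RecT.comp hap (RecT.comp hnx (RecT.snd recT_id))
  have hrec := RecT.prec (recT_const (O := {((KK : ℕ → ℕ) : ℕ →. ℕ)})
    (Encodable.encode ([] : List Bool))) hstep
  let F : ℕ → ℕ := fun n => Nat.rec (Encodable.encode ([] : List Bool))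
    (fun y ih => ap (nx (Nat.pair y ih))) n
  have hF : RecT {((KK : ℕ → ℕ) : ℕ →. ℕ)} F := by
    have h := RecT.comp hrec (RecT.pair (recT_const 0) recT_id)
    refine RecT.congr h fun n => ?_
    simp only [Nat.unpair_pair]
    rfl
  have hF0 : F 0 = Encodable.encode ([] : List Bool) := rfl
  have hFs : ∀ e, F (e + 1) = ap (nx (Nat.pair e (F e))) := fun e => rfl
  let L : ℕ → List Bool := fun e => dl (F e)
  have hLs : ∀ e, L (e + 1) = dl (nx (Nat.pair e (F e))) ++ [false] := by
    intro e
    show dl (F (e + 1)) = _
    rw [hFs]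
    exact dl_encode _
  have hnext : ∀ e, L e <+: dl (nx (Nat.pair e (F e))) := by
    intro e
    show dl (F e) <+: dl (if RR (Nat.pair e (F e)) then (g (Nat.pair e (F e))).unpair.1
      else (Nat.pair e (F e)).unpair.2)
    by_cases h : RR (Nat.pair e (F e))
    · rw [if_pos h]
      have h2 := hg2 _ h
      unfold cb at h2
      rw [Bool.and_eq_true, decide_eq_true_eq, Nat.unpair_pair] at h2
      exact h2.1
    · rw [if_neg h, Nat.unpair_pair]
  have hLmono1 : ∀ e, L e <+: L (e + 1) := by
    intro e
    rw [hLs]
    exact (hnext e).trans (List.prefix_append _ _)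
  have hLmono : ∀ e k, L e <+: L (e + k) := by
    intro e k
    induction k with
    | zero => simp
    | succ k ih => exact ih.trans (hLmono1 _)
  have hLlen : ∀ e, e ≤ (L e).length := by
    intro e
    induction e with
    | zero => simp
    | succ e ih =>
      rw [hLs, List.length_append, List.length_singleton]
      have := (hnext e).length_le
      omega
  let A : ℕ → Bool := fun n => (L (n + 1)).getD n false
  have hA : ∀ e n, n < (L e).length → (L e)[n]? = some (A n) := by
    intro e n hn
    have hn2 : n < (L (n + 1)).length := lt_of_lt_of_le (Nat.lt_succ_self n) (hLlen (n + 1))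
    have h2 : (L (n + 1))[n]? = some (A n) := by
      show _ = some ((L (n + 1)).getD n false)
      rw [List.getD_eq_getElem?_getD, List.getElem?_eq_getElem hn2]
      rfl
    rcases le_total e (n + 1) with h | h
    · obtain ⟨k, hk⟩ := Nat.exists_eq_add_of_le h
      have h3 := hLmono e k
      rw [← hk] at h3
      obtain ⟨r, hr⟩ := h3
      rw [← h2, ← hr, List.getElem?_append_left hn]
    · obtain ⟨k, hk⟩ := Nat.exists_eq_add_of_le h
      have h3 := hLmono (n + 1) k
      rw [← hk] at h3
      obtain ⟨r, hr⟩ := h3
      rw [← h2, ← hr, List.getElem?_append_left hn2]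
  have hseg : ∀ e, seg A (L e).length = L e := by
    intro e
    apply List.ext_getElem?
    intro i
    by_cases hi : i < (L e).length
    · rw [hA e i hi]
      simp [seg, hi]
    · rw [List.getElem?_eq_none (by rw [seg_length]; omega),
        List.getElem?_eq_none (by omega)]
  refine ⟨A, ?_, ?_⟩
  · -- reducibility
    have h1 : Computable (fun z : ℕ => ((dl z.unpair.1).getD z.unpair.2 false).toNat) := by
      have : Computable fun z : ℕ => (dl z.unpair.1)[z.unpair.2]?.getD false :=
        Computable.option_getD (Computable.list_getElem?.comp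
          (dl_computable.comp (Computable.fst.comp Computable.unpair))
          (Computable.snd.comp Computable.unpair)) (Computable.const false)
      have h2 : Computable fun b : Bool => b.toNat := (Primrec.dom_finite _).to_comp
      refine (h2.comp this).of_eq fun z => ?_
      rw [List.getD_eq_getElem?_getD]
    have h2 : RecT {((KK : ℕ → ℕ) : ℕ →. ℕ)} (fun n => Nat.pair (F (n + 1)) n) :=
      RecT.pair (RecT.comp hF (recT_prim Primrec.succ)) recT_id
    refine RecT.congr (RecT.comp (Pool.Agent.Helper743.Computable.recT h1) h2) fun n => ?_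
    simp only [Nat.unpair_pair]
    rfl
  · intro W hW
    -- the index of `W`
    have hf : Partrec (fun m : ℕ => (Part.assert (W (dl m)) fun _ => Part.some ()).map
        (fun _ => 0)) :=
      Partrec.map (Partrec.comp hW dl_computable) (Computable.const 0).to₂
    obtain ⟨c, hc⟩ := Code.exists_code.1 (Partrec.nat_iff.1 hf)
    have hdom : ∀ τ : List Bool, (c.eval (Encodable.encode τ)).Dom ↔ W τ := by
      intro τ
      rw [hc]
      simp [Part.map, Part.assert, dl_encode]
    set e := Encodable.encode c with he
    have hRR : RR (Nat.pair e (F e)) ↔ ∃ τ, L e <+: τ ∧ W τ := by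
      unfold RR cb
      simp only [Nat.unpair_pair, Bool.and_eq_true, decide_eq_true_eq]
      constructor
      · rintro ⟨u, h1, h2⟩
        refine ⟨dl u.unpair.1, h1, ?_⟩
        rw [he, Denumerable.ofNat_encode] at h2
        obtain ⟨v, hv⟩ := Option.isSome_iff_exists.1 h2
        rw [← hdom]
        exact Part.dom_iff_mem.2 ⟨v, Code.evaln_complete.2 ⟨_, Option.mem_def.2 hv⟩⟩
      · rintro ⟨τ, h1, h2⟩
        rw [← hdom, Part.dom_iff_mem] at h2
        obtain ⟨v, hv⟩ := h2
        obtain ⟨k, hk⟩ := Code.evaln_complete.1 hv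
        refine ⟨Nat.pair (Encodable.encode τ) k, ?_, ?_⟩
        · rw [Nat.unpair_pair, dl_encode]
          exact h1
        · rw [Nat.unpair_pair, dl_encode, he, Denumerable.ofNat_encode]
          rw [Option.mem_def] at hk
          rw [hk]
          rfl
    by_cases h : RR (Nat.pair e (F e))
    · left
      have h2 := hg2 _ h
      unfold cb at h2
      rw [Bool.and_eq_true, Nat.unpair_pair] at h2
      have h3 := h2.2
      rw [he, Denumerable.ofNat_encode] at h3
      obtain ⟨v, hv⟩ := Option.isSome_iff_exists.1 h3
      have h4 : W (dl (g (Nat.pair e (F e))).unpair.1) := by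
        rw [← hdom]
        exact Part.dom_iff_mem.2 ⟨v, Code.evaln_complete.2 ⟨_, Option.mem_def.2 hv⟩⟩
      have h5 : nx (Nat.pair e (F e)) = (g (Nat.pair e (F e))).unpair.1 := if_pos h
      rw [← h5] at h4
      refine ⟨(dl (nx (Nat.pair e (F e)))).length, ?_⟩
      have h6 : seg A (dl (nx (Nat.pair e (F e)))).length = dl (nx (Nat.pair e (F e))) := by
        have h7 := hseg (e + 1)
        rw [hLs] at h7
        rw [List.length_append, List.length_singleton, seg_succ] at h7
        exact (List.append_inj h7 (by rw [seg_length])).1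
      rw [h6]
      exact h4
    · right
      refine ⟨(L e).length, fun τ hτ hWτ => h (hRR.2 ⟨τ, ?_, hWτ⟩)⟩
      rw [hseg] at hτ
      exact hτ

end Pool.Agent.Helper206.Gen
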