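import Pool.Agent.Helper206.Gen

set_option autoImplicit false

/-! Computable graphs whose neighbour lists are computable from a 1-generic sequence. -/

namespace Pool.Agent.Helper206.Planar

open Pool.Agent.Helper206.Gen
open Pool.Agent.Helper743 (TR pre use_principle)
open Nat.Partrec (Code)
open scoped Classical

/-! ### Bounded quantifiers over computable predicates -/

theorem ball_computable {α : Type} [Primcodable α] {f : α → ℕ → Bool} (hf : Computable₂ f)
    {b : α → ℕ} (hb : Computable b) :
    Computable (fun a => decide (∀ i < b a, f a i = true)) := by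
  have h := Computable.nat_rec hb (Computable.const (α := α) true)
    (h := fun (a : α) (p : ℕ × Bool) => p.2 && f a p.1)
    (Primrec.and.to_comp.comp (Computable.snd.comp Computable.snd)
      (hf.comp Computable.fst (Computable.fst.comp Computable.snd)))
  refine h.of_eq fun a => ?_
  generalize b a = n
  induction n with
  | zero => simp
  | succ n ih =>
    simp only [ih]
    by_cases h1 : ∀ i < n, f a i = true
    · by_cases h2 : f a n = true
      · have h3 : ∀ i < n + 1, f a i = true := by
          intro i hi
          rcases Nat.lt_succ_iff_lt_or_eq.1 hi with h4 | h4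
          · exact h1 i h4
          · rw [h4]; exact h2
        rw [decide_eq_true h1, h2, decide_eq_true h3]
        rfl
      · have h3 : ¬ ∀ i < n + 1, f a i = true := fun h => h2 (h n (Nat.lt_succ_self n))
        rw [Bool.eq_false_of_not_eq_true h2, decide_eq_false h3, Bool.and_false]
    · have h3 : ¬ ∀ i < n + 1, f a i = true := fun h => h1 fun i hi => h i (by omega)
      rw [decide_eq_false h1, decide_eq_false h3, Bool.false_and]

/-! ### Codes of finite sets -/

theorem le_encode_list (l : List ℕ) : ∀ y ∈ l, y ≤ Encodable.encode l := by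
  induction l with
  | nil => simp
  | cons a l ih =>
    intro y hy
    rw [Encodable.encode_list_cons]
    rcases List.mem_cons.1 hy with h | h
    · subst h
      have := Nat.left_le_pair y (Encodable.encode l)
      simp only [Encodable.encode_nat]
      omega
    · have := ih y h
      have h2 := Nat.right_le_pair (Encodable.encode a) (Encodable.encode l)
      omega

theorem le_encode_finset (S : Finset ℕ) : ∀ y ∈ S, y ≤ Encodable.encode S := by
  intro y hy
  have h1 : Encodable.encode S = Encodable.encode S.val := rfl
  have h2 : ((↑) : List ℕ → Multiset ℕ) <$>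
      Encodable.decode (α := List ℕ) (Encodable.encode S.val) = some S.val :=
    Encodable.encodek S.val
  rw [Option.map_eq_map, Option.map_eq_some_iff] at h2
  obtain ⟨l, hl, hl2⟩ := h2
  have h3 : Encodable.encode l = Encodable.encode S.val := by
    rw [← Denumerable.ofNat_of_decode hl, Denumerable.encode_ofNat]
  rw [h1, ← h3]
  apply le_encode_list
  have h4 : y ∈ S.val := hy
  rw [← hl2] at h4
  exact h4

/-! ### Highly computable graphs -/

/-- the bounds of the layers -/
def lay (h : ℕ → ℕ) : ℕ → ℕ
  | 0 => 0
  | k + 1 => max (lay h k + 1) (Nat.rec 0 (fun y ih => max ih (h y + 1)) (lay h k))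

theorem lay_computable {h : ℕ → ℕ} (hh : Computable h) : Computable (lay h) := by
  have h1 : Computable fun n : ℕ => (Nat.rec 0 (fun y ih => max ih (h y + 1)) n : ℕ) := by
    refine Computable.nat_rec (f := fun n : ℕ => n) (g := fun _ : ℕ => 0)
      (h := fun (_ : ℕ) (p : ℕ × ℕ) => max p.2 (h p.1 + 1)) Computable.id (Computable.const 0) ?_
    exact Primrec.nat_max.to_comp.comp (Computable.snd.comp Computable.snd)
      (Computable.succ.comp (hh.comp (Computable.fst.comp Computable.snd)))
  have h2 : Computable fun n : ℕ => (Nat.rec 0 (fun _ ih => max (ih + 1)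
      (Nat.rec 0 (fun y ih => max ih (h y + 1)) ih)) n : ℕ) := by
    refine Computable.nat_rec (f := fun n : ℕ => n) (g := fun _ : ℕ => 0)
      (h := fun (_ : ℕ) (p : ℕ × ℕ) => max (p.2 + 1)
        (Nat.rec 0 (fun y ih => max ih (h y + 1)) p.2)) Computable.id (Computable.const 0) ?_
    exact Primrec.nat_max.to_comp.comp (Computable.succ.comp (Computable.snd.comp Computable.snd))
      (h1.comp (Computable.snd.comp Computable.snd))
  refine h2.of_eq fun n => ?_
  induction n with
  | zero => rfl
  | succ n ih => simp only [lay]; rw [← ih]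

theorem lt_rec_max (h : ℕ → ℕ) (n x : ℕ) (hx : x < n) :
    h x < Nat.rec 0 (fun y ih => max ih (h y + 1)) n := by
  induction n with
  | zero => omega
  | succ n ih =>
    show h x < max _ (h n + 1)
    rcases Nat.lt_succ_iff_lt_or_eq.1 hx with h1 | h1
    · exact lt_of_lt_of_le (ih h1) (le_max_left _ _)
    · subst h1
      exact lt_of_lt_of_le (Nat.lt_succ_self _) (le_max_right _ _)

theorem lay_lt_succ (h : ℕ → ℕ) (k : ℕ) : lay h k < lay h (k + 1) :=
  lt_of_lt_of_le (Nat.lt_succ_self _) (le_max_left _ _)

theorem lay_mono (h : ℕ → ℕ) : Monotone (lay h) :=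
  monotone_nat_of_le_succ fun k => (lay_lt_succ h k).le

theorem le_lay (h : ℕ → ℕ) (k : ℕ) : k ≤ lay h k := by
  induction k with
  | zero => simp
  | succ k ih => have := lay_lt_succ h k; omega

theorem lt_lay_succ (h : ℕ → ℕ) {k x : ℕ} (hx : x < lay h k) : h x < lay h (k + 1) :=
  lt_of_lt_of_le (lt_rec_max h _ x hx) (le_max_right _ _)

/-- A graph whose adjacency is computable, with a computable bound on the neighbours of a vertex,
has a computable proper colouring with four colours when it has a colouring with two colours. -/
theorem four_colouring (G : SimpleGraph ℕ) (b : ℕ → ℕ → Bool) (hb : Computable₂ b)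
    (hbG : ∀ x y, b x y = true ↔ G.Adj x y) (h : ℕ → ℕ) (hh : Computable h)
    (hbd : ∀ x y, G.Adj x y → y ≤ h x) (hcol : ∃ f : ℕ → Bool, ∀ x y, G.Adj x y → f x ≠ f y) :
    ∃ c : ℕ → ℕ, Computable c ∧ (∀ x, c x < 4) ∧ ∀ x y, G.Adj x y → c x ≠ c y := by
  obtain ⟨f, hf⟩ := hcol
  -- the level of a vertex
  have hlev : ∀ x, ∃ k, x < lay h (k + 1) := fun x => ⟨x, by
    have := le_lay h (x + 1); omega⟩
  let lev : ℕ → ℕ := fun x => Nat.find (hlev x)
  have hL : Computable (lay h) := lay_computable hh
  have hlevc : Computable lev := by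
    have h1 : Computable₂ fun (x k : ℕ) => decide (x < lay h (k + 1)) := by
      have : Computable₂ fun (x y : ℕ) => decide (x < y) := Primrec.nat_lt.decide.to_comp
      exact this.comp Computable.fst (hL.comp (Computable.succ.comp Computable.snd))
    have h2 : Partrec fun x : ℕ => Nat.rfind (fun k =>
        (Part.some (decide (x < lay h (k + 1))) : Part Bool)) :=
      Partrec.rfind (p := fun x k => Part.some (decide (x < lay h (k + 1)))) h1.partrec₂
    refine h2.of_eq_tot fun x => ?_
    refine Nat.mem_rfind.2 ⟨?_, ?_⟩
    · simpa using Nat.find_spec (hlev x)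
    · intro m hm
      have := Nat.find_min (hlev x) hm
      simpa using this
  have hlev1 : ∀ x, x < lay h (lev x + 1) := fun x => Nat.find_spec (hlev x)
  have hlev2 : ∀ x, lay h (lev x) ≤ x := by
    intro x
    by_contra hcon
    rw [not_le] at hcon
    rcases Nat.eq_zero_or_pos (lev x) with h0 | h0
    · rw [h0] at hcon
      exact Nat.not_lt_zero _ hcon
    · have h1 := Nat.find_min (hlev x) (m := lev x - 1) (by show lev x - 1 < lev x; omega)
      apply h1
      rwa [Nat.sub_add_cancel h0]
  have hadj : ∀ x y, G.Adj x y → lev y ≤ lev x + 1 := by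
    intro x y hxy
    have h1 : y < lay h (lev x + 1 + 1) :=
      lt_of_le_of_lt (hbd x y hxy) (lt_lay_succ h (hlev1 x))
    exact Nat.find_min' (hlev y) h1
  -- the search for a colouring of a layer
  let bit : ℕ → ℕ → Bool := fun m x => (dl m)[x]?.getD false
  have hbit : Computable₂ bit := Computable.option_getD (Computable.list_getElem?.comp
    (dl_computable.comp Computable.fst) Computable.snd) (Computable.const false)
  let tst : (ℕ × ℕ) × ℕ → ℕ → Bool := fun q y =>
    !(decide (lay h q.1.1 ≤ q.2) && (decide (lay h q.1.1 ≤ y) && b q.2 y)) ||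
      (bit q.1.2 q.2 ^^ bit q.1.2 y)
  have htst : Computable₂ tst := by
    have hle : Computable₂ fun (x y : ℕ) => decide (x ≤ y) := Primrec.nat_le.decide.to_comp
    have hk : Computable fun q : ((ℕ × ℕ) × ℕ) × ℕ => q.1.1.1 :=
      Computable.fst.comp (Computable.fst.comp Computable.fst)
    have hm : Computable fun q : ((ℕ × ℕ) × ℕ) × ℕ => q.1.1.2 :=
      Computable.snd.comp (Computable.fst.comp Computable.fst)
    have hx : Computable fun q : ((ℕ × ℕ) × ℕ) × ℕ => q.1.2 :=
      Computable.snd.comp Computable.fst
    have hy : Computable fun q : ((ℕ × ℕ) × ℕ) × ℕ => q.2 := Computable.snd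
    have hxor : Computable₂ fun (x y : Bool) => (x ^^ y) :=
      (Primrec.dom_finite (fun p : Bool × Bool => (p.1 ^^ p.2))).to_comp
    exact Primrec.or.to_comp.comp (Primrec.not.to_comp.comp (Primrec.and.to_comp.comp
      (hle.comp (hL.comp hk) hx) (Primrec.and.to_comp.comp (hle.comp (hL.comp hk) hy)
      (hb.comp hx hy)))) (hxor.comp (hbit.comp hm hx) (hbit.comp hm hy))
  let ok : ℕ → ℕ → Bool := fun k m => decide (∀ x < lay h (k + 1), (decide
    (∀ y < lay h (k + 1), tst ((k, m), x) y = true)) = true)
  have hok : Computable₂ ok := by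
    have h1 : Computable fun q : (ℕ × ℕ) × ℕ => decide
        (∀ y < lay h (q.1.1 + 1), tst q y = true) :=
      ball_computable htst (hL.comp (Computable.succ.comp (Computable.fst.comp Computable.fst)))
    have h2 : Computable₂ fun (q : ℕ × ℕ) (x : ℕ) => decide
        (∀ y < lay h (q.1 + 1), tst (q, x) y = true) :=
      h1.of_eq fun q => rfl
    exact ball_computable h2 (hL.comp (Computable.succ.comp Computable.fst))
  have hok_iff : ∀ k m, ok k m = true ↔ ∀ x < lay h (k + 1), ∀ y < lay h (k + 1),
      lay h k ≤ x → lay h k ≤ y → G.Adj x y → bit m x ≠ bit m y := by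
    intro k m
    simp only [ok, decide_eq_true_eq]
    refine forall_congr' fun x => forall_congr' fun hx => forall_congr' fun y =>
      forall_congr' fun hy => ?_
    simp only [tst]
    by_cases h1 : lay h k ≤ x
    · by_cases h2 : lay h k ≤ y
      · by_cases h3 : G.Adj x y
        · have h4 := (hbG x y).2 h3
          rw [h4, decide_eq_true h1, decide_eq_true h2]
          simp only [h1, h2, h3, true_implies]
          cases bit m x <;> cases bit m y <;> simp
        · have h4 : b x y = false := by
            rw [← Bool.not_eq_true, hbG]; exact h3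
          rw [h4]
          simp [h3]
      · simp [h2]
    · simp [h1]
  have hex : ∀ k, ∃ m, ok k m = true := by
    intro k
    refine ⟨Encodable.encode ((List.range (lay h (k + 1))).map f), ?_⟩
    rw [hok_iff]
    intro x hx y hy _ _ hxy
    have h1 : ∀ z < lay h (k + 1),
        bit (Encodable.encode ((List.range (lay h (k + 1))).map f)) z = f z := by
      intro z hz
      show (dl (Encodable.encode ((List.range (lay h (k + 1))).map f)))[z]?.getD false = f z
      rw [dl_encode]
      simp [hz]
    rw [h1 x hx, h1 y hy]
    exact hf x y hxy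
  let cl : ℕ → ℕ := fun k => Nat.find (hex k)
  have hclc : Computable cl := by
    have h2 : Partrec fun k : ℕ => Nat.rfind (fun m => (Part.some (ok k m) : Part Bool)) :=
      Partrec.rfind (p := fun k m => Part.some (ok k m)) hok.partrec₂
    refine h2.of_eq_tot fun k => ?_
    refine Nat.mem_rfind.2 ⟨?_, ?_⟩
    · simpa using (Nat.find_spec (hex k)).symm
    · intro m hm
      have := Nat.find_min (hex k) hm
      simpa using this
  have hcl : ∀ k, ok k (cl k) = true := fun k => Nat.find_spec (hex k)
  refine ⟨fun x => 2 * (lev x % 2) + (bit (cl (lev x)) x).toNat, ?_, ?_, ?_⟩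
  · have h1 : Computable fun x : ℕ => 2 * (lev x % 2) :=
      Primrec.nat_mul.to_comp.comp (Computable.const 2)
        (Primrec.nat_mod.to_comp.comp hlevc (Computable.const 2))
    have h2 : Computable fun x : ℕ => (bit (cl (lev x)) x).toNat := by
      have h3 : Computable fun b : Bool => b.toNat := (Primrec.dom_finite _).to_comp
      exact h3.comp (hbit.comp (hclc.comp hlevc) Computable.id)
    exact Primrec.nat_add.to_comp.comp h1 h2
  · intro x
    have h1 := Nat.mod_lt (lev x) (show 2 > 0 by norm_num)
    have h2 := Bool.toNat_le (bit (cl (lev x)) x)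
    show 2 * (lev x % 2) + (bit (cl (lev x)) x).toNat < 4
    omega
  · intro x y hxy heq
    have h1 := hadj x y hxy
    have h2 := hadj y x hxy.symm
    have h3 := Bool.toNat_le (bit (cl (lev x)) x)
    have h4 := Bool.toNat_le (bit (cl (lev y)) y)
    have h5 : lev x = lev y := by
      simp only at heq
      omega
    have h6 := (hok_iff (lev x) (cl (lev x))).1 (hcl (lev x)) x (hlev1 x) y
      (by rw [h5]; exact hlev1 y) (hlev2 x) (by rw [h5]; exact hlev2 y) hxy
    apply h6
    simp only [← h5] at heq
    have h7 : (bit (cl (lev x)) x).toNat = (bit (cl (lev x)) y).toNat := by omega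
    revert h7
    cases bit (cl (lev x)) x <;> cases bit (cl (lev x)) y <;> simp

/-! ### Neighbour bounds computable from a 1-generic sequence -/

theorem toNat_pre (A : ℕ → Bool) (n : ℕ) :
    (seg A n).map Bool.toNat = pre (fun n => (A n).toNat) n := by
  simp [seg, pre]

/-- If the neighbour lists of a computable graph are computable from a 1-generic sequence then the
neighbours have a computable bound. -/
theorem computable_bound (A : ℕ → Bool)
    (hA : ∀ W : List Bool → Prop, REPred W →
      (∃ n, W (seg A n)) ∨ (∃ n, ∀ τ, seg A n <+: τ → ¬ W τ))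
    (G : SimpleGraph ℕ) (b : ℕ → ℕ → Bool) (hb : Computable₂ b)
    (hbG : ∀ x y, b x y = true ↔ G.Adj x y) (N : ℕ → ℕ)
    (hN : ∀ x y, G.Adj x y → y ≤ N x) (hNA : TR N (fun n => (A n).toNat)) :
    ∃ h : ℕ → ℕ, Computable h ∧ ∀ x y, G.Adj x y → y ≤ h x := by
  obtain ⟨ev, hev, hmono, hspec⟩ := use_principle (fun n => (A n).toNat) _ hNA
  have hmapc : Computable fun σ : List Bool => σ.map Bool.toNat := by
    have h3 : Primrec fun b : Bool => b.toNat := Primrec.dom_finite _
    have h4 : Primrec₂ fun (_ : List Bool) (b : Bool) => b.toNat := h3.comp Primrec.snd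
    exact (Primrec.list_map Primrec.id h4).to_comp
  -- the bad strings
  let t : List Bool → ℕ → Bool := fun σ u =>
    ((ev (σ.map Bool.toNat) u.unpair.1).elim false fun z => decide (z < u.unpair.2)) &&
      b u.unpair.1 u.unpair.2
  have ht : Computable₂ t := by
    have hu1 : Computable fun q : List Bool × ℕ => q.2.unpair.1 :=
      Computable.fst.comp (Computable.unpair.comp Computable.snd)
    have hu2 : Computable fun q : List Bool × ℕ => q.2.unpair.2 :=
      Computable.snd.comp (Computable.unpair.comp Computable.snd)
    have h1 : Computable fun q : List Bool × ℕ => ev (q.1.map Bool.toNat) q.2.unpair.1 :=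
      hev.comp (hmapc.comp Computable.fst) hu1
    have hlt : Computable₂ fun (x y : ℕ) => decide (x < y) := Primrec.nat_lt.decide.to_comp
    have h2 : Computable fun q : List Bool × ℕ =>
        ((ev (q.1.map Bool.toNat) q.2.unpair.1).elim false fun z => decide (z < q.2.unpair.2)) := by
      have := Computable.option_casesOn h1 (Computable.const (α := List Bool × ℕ) false)
        (g := fun (q : List Bool × ℕ) (z : ℕ) => decide (z < q.2.unpair.2))
        (hlt.comp Computable.snd (hu2.comp Computable.fst))
      refine this.of_eq fun q => ?_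
      cases ev (q.1.map Bool.toNat) q.2.unpair.1 <;> rfl
    exact Primrec.and.to_comp.comp h2 (hb.comp hu1 hu2)
  have htt : ∀ σ u, t σ u = true ↔ ∃ z, ev (σ.map Bool.toNat) u.unpair.1 = some z ∧
      z < u.unpair.2 ∧ G.Adj u.unpair.1 u.unpair.2 := by
    intro σ u
    simp only [t, Bool.and_eq_true, hbG]
    constructor
    · rintro ⟨h1, h2⟩
      cases hz : ev (σ.map Bool.toNat) u.unpair.1 with
      | none => rw [hz] at h1; simp at h1
      | some z =>
        rw [hz] at h1
        exact ⟨z, rfl, by simpa using h1, h2⟩
    · rintro ⟨z, h1, h2, h3⟩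
      rw [h1]
      exact ⟨by simpa using h2, h3⟩
  rcases hA (fun σ => ∃ u, t σ u = true) (re_of_exists ht) with ⟨n, u, hu⟩ | ⟨n, hn⟩
  · exfalso
    obtain ⟨z, h1, h2, h3⟩ := (htt _ _).1 hu
    rw [toNat_pre] at h1
    have h4 : z ∈ (Part.some (N u.unpair.1) : Part ℕ) := (hspec _ _).2 ⟨n, h1⟩
    rw [Part.mem_some_iff] at h4
    have h5 := hN _ _ h3
    omega
  · -- the search
    let sr : ℕ → ℕ → Option ℕ := fun x m =>
      bif decide (seg A n <+: dl m) then ev ((dl m).map Bool.toNat) x else none
    have hsr : Computable₂ sr := by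
      have h1 : Computable fun q : ℕ × ℕ => decide (seg A n <+: dl q.2) :=
        prefix_computable.comp (Computable.const _) (dl_computable.comp Computable.snd)
      exact Computable.cond h1 (hev.comp (hmapc.comp (dl_computable.comp Computable.snd))
        Computable.fst) (Computable.const none)
    have hdom : ∀ x, (Nat.rfindOpt (sr x)).Dom := by
      intro x
      rw [Nat.rfindOpt_dom]
      obtain ⟨k, hk⟩ := (hspec x (N x)).1 (Part.mem_some _)
      refine ⟨Encodable.encode (seg A (max n k)), N x, ?_⟩
      have h1 : seg A n <+: seg A (max n k) := by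
        obtain ⟨j, hj⟩ := Nat.exists_eq_add_of_le (le_max_left n k)
        rw [hj]
        clear hj
        induction j with
        | zero => simp
        | succ j ih =>
          rw [← Nat.add_assoc, seg_succ]
          exact ih.trans (List.prefix_append _ _)
      simp only [sr, dl_encode]
      rw [decide_eq_true h1, toNat_pre]
      exact hmono _ _ _ _ (Pool.Agent.Helper743.pre_prefix _ (le_max_right n k)) hk
    refine ⟨fun x => (Nat.rfindOpt (sr x)).get (hdom x), ?_, ?_⟩
    · exact (Partrec.rfindOpt hsr).of_eq_tot fun x => Part.get_mem _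
    · intro x y hxy
      have h1 := Part.get_mem (hdom x)
      obtain ⟨m, hm⟩ := Nat.rfindOpt_spec h1
      by_contra hcon
      rw [not_le] at hcon
      change (Nat.rfindOpt (sr x)).get (hdom x) < y at hcon
      generalize (Nat.rfindOpt (sr x)).get (hdom x) = z at hm hcon
      simp only [sr, Option.mem_def] at hm
      by_cases h2 : seg A n <+: dl m
      · rw [decide_eq_true h2] at hm
        refine hn _ h2 ⟨Nat.pair x y, (htt _ _).2 ⟨z, ?_, ?_, ?_⟩⟩
        · rw [Nat.unpair_pair]
          exact hm
        · rw [Nat.unpair_pair]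
          exact hcon
        · rw [Nat.unpair_pair]
          exact hxy
      · rw [decide_eq_false h2] at hm
        simp at hm

/-- A 1-generic sequence is not computable. -/
theorem generic_not_computable (A : ℕ → Bool)
    (hA : ∀ W : List Bool → Prop, REPred W →
      (∃ n, W (seg A n)) ∨ (∃ n, ∀ τ, seg A n <+: τ → ¬ W τ)) : ¬ Computable A := by
  intro hc
  let t : List Bool → ℕ → Bool := fun σ u => (σ[u]?.elim false fun z => (z ^^ A u))
  have ht : Computable₂ t := by
    have h1 : Computable fun q : List Bool × ℕ => q.1[q.2]? := Computable.list_getElem?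
    have hxor : Computable₂ fun (x y : Bool) => (x ^^ y) :=
      (Primrec.dom_finite (fun p : Bool × Bool => (p.1 ^^ p.2))).to_comp
    have := Computable.option_casesOn h1 (Computable.const (α := List Bool × ℕ) false)
      (g := fun (q : List Bool × ℕ) (z : Bool) => (z ^^ A q.2))
      (hxor.comp Computable.snd (hc.comp (Computable.snd.comp Computable.fst)))
    refine this.of_eq fun q => ?_
    show _ = q.1[q.2]?.elim false fun z => (z ^^ A q.2)
    cases q.1[q.2]? <;> rfl
  rcases hA (fun σ => ∃ u, t σ u = true) (re_of_exists ht) with ⟨n, u, hu⟩ | ⟨n, hn⟩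
  · simp only [t, seg] at hu
    by_cases h : u < n
    · simp [h] at hu
    · simp [h] at hu
  · refine hn (seg A n ++ [!A n]) (List.prefix_append _ _) ⟨n, ?_⟩
    simp only [t]
    rw [List.getElem?_append_right (by rw [seg_length]), seg_length]
    simp

end Pool.Agent.Helper206.Planar
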